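import Pool.Agent.Helper185.SelFsigma

/-!
`S₁(Γ, Ω)` is hereditary for `F_σ` subsets of sets of reals.
-/

namespace Pool.Agent.Results.MP_26524f_gt.SoneFsigma

open Pool.Agent.Helper185.Sel

/-- `Y` is an `F_σ` subset of the set of reals `X`: a countable union of sets closed in `X`,
that is, of sets of the form `X ∩ K` with `K` closed in `ℝ`. -/
def IsFSigmaIn (Y X : Set ℝ) : Prop :=
  ∃ K : ℕ → Set ℝ, (∀ k, IsClosed (K k)) ∧ Y = ⋃ k, X ∩ K k

/-- If a set of reals `X` satisfies `S₁(Γ, Ω)`, so does each `F_σ` subset of `X`. -/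
theorem result : ∀ X Y : Set ℝ, IsFSigmaIn Y X →
    S1 (GammaOf (OpenFam X)) (OmegaOf (OpenFam X)) →
    S1 (GammaOf (OpenFam Y)) (OmegaOf (OpenFam Y)) := by
  rintro X Y ⟨K, hK, rfl⟩ h
  rw [← Set.inter_iUnion]
  exact s1_gamma_omega_fsigma X K hK h

end Pool.Agent.Results.MP_26524f_gt.SoneFsigma
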